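import Mathlib
import Pool.Agent.Helper11_PGL.StmtG

/-!
# Module ALGK
-/

open PGH Polynomial IntermediateField
open scoped TensorProduct IntermediateField.algebraAdjoinAdjoin

universe u

namespace PGL

theorem algK (hdom : DomStmt.{u, u, u}) : AlgKStmt.{u} := by
  intro k V R κ _ _ _ _ _ _ _ _ _ _ _ _ ι t ht hlift h
  by_contra hh
  have hdomVR : IsDomain (V ⊗[k] R) := hdom k V R
  have hhk : Transcendental k h := by
    intro halg
    apply hh
    have h1 : IsAlgebraic k (ι h) := halg.algHom ι
    exact h1.tower_top V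
  set lf := Algebra.TensorProduct.lift (IsScalarTower.toAlgHom k V κ) ι
    (fun _ _ => Commute.all _ _) with hlf
  set x : V ⊗[k] R := 1 ⊗ₜ h with hx
  let A : Subalgebra V (V ⊗[k] R) := Algebra.adjoin V {x}
  have hxA : x ∈ A := Algebra.subset_adjoin rfl
  -- every element is algebraic over `A`
  have halg : ∀ s : V ⊗[k] R, IsAlgebraic A s := by
    intro s
    induction s using TensorProduct.induction_on with
    | zero => exact isAlgebraic_zero
    | tmul v r =>
      have h1 : (v ⊗ₜ[k] r : V ⊗[k] R) = (v ⊗ₜ 1) * (1 ⊗ₜ r) := by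
        rw [Algebra.TensorProduct.tmul_mul_tmul, one_mul, mul_one]
      rw [h1]
      apply IsAlgebraic.mul
      · have h2 : (v ⊗ₜ[k] (1 : R) : V ⊗[k] R) = algebraMap A (V ⊗[k] R) (algebraMap V A v) := rfl
        rw [h2]
        exact isAlgebraic_algebraMap _
      · have h3 : Algebra.IsAlgebraic k⟮h⟯ R := FF.isAlgebraic hhk
        have h4 : IsAlgebraic (Algebra.adjoin k {h}) r := by
          rw [IsFractionRing.isAlgebraic_iff (Algebra.adjoin k {h}) k⟮h⟯ R]
          exact h3.isAlgebraic r
        have hmem : ∀ a ∈ Algebra.adjoin k ({h} : Set R), (1 ⊗ₜ[k] a : V ⊗[k] R) ∈ A := by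
          intro a ha
          induction ha using Algebra.adjoin_induction with
          | mem z hz => rw [Set.mem_singleton_iff] at hz; rw [hz]; exact hxA
          | algebraMap c =>
            have h5 : (1 ⊗ₜ[k] algebraMap k R c : V ⊗[k] R) = algebraMap V (V ⊗[k] R) (algebraMap k V c) := by
              rw [Algebra.TensorProduct.algebraMap_apply, Algebra.algebraMap_self_apply,
                Algebra.algebraMap_eq_smul_one, Algebra.algebraMap_eq_smul_one,
                TensorProduct.smul_tmul]
            rw [h5]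
            exact A.algebraMap_mem _
          | add a b _ _ ha hb => rw [TensorProduct.tmul_add]; exact add_mem ha hb
          | mul a b _ _ ha hb =>
            have : (1 ⊗ₜ[k] (a * b) : V ⊗[k] R) = (1 ⊗ₜ a) * (1 ⊗ₜ b) := by
              rw [Algebra.TensorProduct.tmul_mul_tmul, one_mul]
            rw [this]; exact mul_mem ha hb
        let φ : Algebra.adjoin k ({h} : Set R) →+* A :=
          { toFun := fun a => ⟨1 ⊗ₜ (a : R), hmem a a.2⟩
            map_one' := rfl
            map_zero' := by apply Subtype.ext; exact TensorProduct.tmul_zero _ _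
            map_add' := by
              intro a b; apply Subtype.ext
              change (1 ⊗ₜ[k] ((a : R) + (b : R)) : V ⊗[k] R) = (1 ⊗ₜ[k] (a : R)) + (1 ⊗ₜ[k] (b : R))
              rw [TensorProduct.tmul_add]
            map_mul' := by
              intro a b; apply Subtype.ext
              change (1 ⊗ₜ[k] ((a : R) * (b : R)) : V ⊗[k] R) =
                (1 ⊗ₜ[k] (a : R)) * (1 ⊗ₜ[k] (b : R))
              rw [Algebra.TensorProduct.tmul_mul_tmul, one_mul] }
        have hinc : Function.Injective (Algebra.TensorProduct.includeRight : R →ₐ[k] V ⊗[k] R) :=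
          Algebra.TensorProduct.includeRight_injective (algebraMap k V).injective
        have hφ : Function.Injective φ := by
          intro a b hab
          apply Subtype.ext
          apply hinc
          exact congrArg Subtype.val hab
        exact h4.ringHom_of_comp_eq φ
          ((Algebra.TensorProduct.includeRight : R →ₐ[k] V ⊗[k] R) : R →+* V ⊗[k] R) hφ rfl
    | add a b ha hb => exact ha.add hb
  obtain ⟨q, hq0, hq⟩ := (halg t).exists_nonzero_coeff_and_aeval_eq_zero
    (mem_nonZeroDivisors_of_ne_zero ht)
  -- apply `lf`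
  have h6 : lf ((q.coeff 0 : A) : V ⊗[k] R) = 0 := by
    have h7 : lf (aeval t q) = 0 := by rw [hq, map_zero]
    rw [aeval_eq_sum_range, map_sum, Finset.sum_range_succ'] at h7
    have h8 : ∀ i ∈ Finset.range q.natDegree, lf (q.coeff (i + 1) • t ^ (i + 1)) = 0 := by
      intro i _
      rw [Algebra.smul_def, map_mul, map_pow, hlift, pow_succ, mul_zero, mul_zero]
    rw [Finset.sum_eq_zero h8, zero_add, pow_zero, Algebra.smul_def, mul_one] at h7
    exact h7
  -- the coefficient is a polynomial in `x`
  have h9 : ((q.coeff 0 : A) : V ⊗[k] R) ∈ Algebra.adjoin V {x} := (q.coeff 0).2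
  rw [Algebra.adjoin_singleton_eq_range_aeval] at h9
  obtain ⟨F, hF⟩ := h9
  have hF0 : F ≠ 0 := by
    rintro rfl
    apply hq0
    apply Subtype.ext
    rw [← hF]; exact map_zero _
  apply hh
  refine ⟨F, hF0, ?_⟩
  have hcomm : ∀ v : V, lf (algebraMap V (V ⊗[k] R) v) = algebraMap V κ v := by
    intro v
    change lf (v ⊗ₜ 1) = _
    rw [hlf, Algebra.TensorProduct.lift_tmul, map_one, mul_one]
    rfl
  let lfV : V ⊗[k] R →ₐ[V] κ :=
    { toRingHom := lf.toRingHom
      commutes' := hcomm }
  have h10 : lfV x = ι h := by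
    change lf (1 ⊗ₜ h) = _
    rw [hlf, Algebra.TensorProduct.lift_tmul, map_one, one_mul]
  have h11 : lfV (aeval x F) = aeval (ι h) F := by
    rw [← h10, ← Polynomial.aeval_algHom_apply]
  rw [← h11]
  change lf (aeval x F) = 0
  have h12 : (aeval x F : V ⊗[k] R) = ((q.coeff 0 : A) : V ⊗[k] R) := hF
  rw [h12, h6]

end PGL
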