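import Mathlib
import Pool.Agent.Helper11_PGL.StmtG

/-!
# Module COP
-/

open PGH Polynomial IntermediateField
open scoped TensorProduct IntermediateField.algebraAdjoinAdjoin

universe u

namespace PGL

namespace Cop

section DerZero

variable {k R κ : Type*} [Field k] [CharZero k] [Field R] [Algebra k R] [Field κ] [Algebra k κ]
  (ι : R →ₐ[k] κ) (d : R →+ κ) (hd : ∀ a b, d (a * b) = ι a * d b + ι b * d a)

include hd

theorem d_one : d 1 = 0 := by
  have h := hd 1 1
  rw [mul_one, map_one ι, one_mul] at h
  exact left_eq_add.1 h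

theorem d_inv {a : R} (ha : d a = 0) : d a⁻¹ = 0 := by
  rcases eq_or_ne a 0 with rfl | h0
  · rw [inv_zero, map_zero]
  have h := hd a a⁻¹
  rw [mul_inv_cancel₀ h0, d_one ι d hd, ha, mul_zero, add_zero] at h
  exact (mul_eq_zero.1 h.symm).resolve_left (by simpa using h0)

/-- the field of constants of `d` -/
def cst : Subfield R where
  carrier := {z | d z = 0}
  zero_mem' := map_zero d
  one_mem' := d_one ι d hd
  add_mem' := fun {a b} ha hb => by
    change d (a + b) = 0
    rw [map_add, show d a = 0 from ha, show d b = 0 from hb, add_zero]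
  mul_mem' := fun {a b} ha hb => by
    change d (a * b) = 0
    rw [hd, show d a = 0 from ha, show d b = 0 from hb, mul_zero, mul_zero, add_zero]
  neg_mem' := fun {a} ha => by
    change d (-a) = 0
    rw [map_neg, show d a = 0 from ha, neg_zero]
  inv_mem' := fun a ha => d_inv ι d hd ha

theorem d_pow (r : R) (n : ℕ) : d (r ^ n) = n * ι r ^ (n - 1) * d r := by
  induction n with
  | zero => simp [d_one ι d hd]
  | succ n ih =>
    rw [pow_succ, hd, ih]
    rcases n with _ | n
    · simp
    · simp only [Nat.add_sub_cancel, map_pow]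
      push_cast
      ring

theorem d_aeval (r : R) (q : (cst ι d hd)[X]) :
    d (aeval r q) = ι (aeval r (derivative q)) * d r := by
  induction q using Polynomial.induction_on' with
  | add p q hp hq => rw [map_add, map_add, hp, hq, derivative_add, map_add, map_add, add_mul]
  | monomial n a =>
    rw [aeval_monomial, derivative_monomial, aeval_monomial]
    have ha : d (algebraMap (cst ι d hd) R a) = 0 := a.2
    rw [hd, ha, mul_zero, add_zero, d_pow ι d hd, map_mul, map_mul, map_mul, map_pow]
    simp only [map_natCast]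
    ring

theorem der_zero (hk : ∀ c : k, d (algebraMap k R c) = 0) {x : R} (hx : d x = 0) {r : R}
    (hr : IsAlgebraic k⟮x⟯ r) : d r = 0 := by
  have hmem : ∀ a ∈ k⟮x⟯, a ∈ cst ι d hd := by
    intro a ha
    induction ha using IntermediateField.adjoin_induction with
    | mem z hz => rw [Set.mem_singleton_iff] at hz; rw [hz]; exact hx
    | algebraMap c => exact hk c
    | add a b _ _ ha hb => exact add_mem ha hb
    | mul a b _ _ ha hb => exact mul_mem ha hb
    | inv a _ ha => exact inv_mem ha
  let φ : k⟮x⟯ →+* cst ι d hd :=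
    { toFun := fun a => ⟨a, hmem a a.2⟩
      map_one' := rfl
      map_zero' := rfl
      map_add' := fun _ _ => rfl
      map_mul' := fun _ _ => rfl }
  have h1 : IsAlgebraic (cst ι d hd) r :=
    hr.ringHom_of_comp_eq φ (RingHom.id R) φ.injective rfl
  have hch : CharZero R := charZero_of_injective_algebraMap (algebraMap k R).injective
  have hch2 : CharZero (cst ι d hd) := inferInstance
  have h2 : IsIntegral (cst ι d hd) r := h1.isIntegral
  have h3 : aeval r (minpoly (cst ι d hd) r) = 0 := minpoly.aeval _ r
  have h4 : aeval r (derivative (minpoly (cst ι d hd) r)) ≠ 0 := by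
    have hsep : (minpoly (cst ι d hd) r).Separable := (minpoly.irreducible h2).separable
    exact hsep.aeval_derivative_ne_zero h3
  have h5 := d_aeval ι d hd r (minpoly (cst ι d hd) r)
  rw [h3, map_zero] at h5
  exact (mul_eq_zero.1 h5.symm).resolve_left (by simpa using h4)

end DerZero

/-- constants of an algebraic extension are algebraic over the constants -/
theorem const_algebraic {k E κ : Type*} [Field k] [Field E] [CharZero E] [Algebra k E] [Field κ]
    [Algebra E κ] [Algebra k κ] [IsScalarTower k E κ] (D : Derivation ℤ E E)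
    (hD1 : ∀ w : E, D w = 0 → ∃ c : k, algebraMap k E c = w) (D' : Derivation ℤ κ κ)
    (hD' : ∀ a : E, D' (algebraMap E κ a) = algebraMap E κ (D a)) {z : κ}
    (hz : IsAlgebraic E z) (hz0 : D' z = 0) : IsAlgebraic k z := by
  have h2 : IsIntegral E z := hz.isIntegral
  have key : ∀ q : E[X], D' (aeval z q) = ∑ i ∈ Finset.range (q.natDegree + 1),
      algebraMap E κ (D (q.coeff i)) * z ^ i := by
    intro q
    rw [aeval_eq_sum_range, map_sum]
    apply Finset.sum_congr rfl
    intro i _
    rw [Algebra.smul_def, D'.leibniz, D'.leibniz_pow, hz0, smul_zero, smul_zero, smul_zero,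
      zero_add, hD', smul_eq_mul, mul_comm]
  set p := minpoly E z with hp
  have hpm : p.Monic := minpoly.monic h2
  have h3 := key p
  rw [hp, minpoly.aeval, map_zero, ← hp] at h3
  -- the polynomial with the derivatives as coefficients
  let r : E[X] := ∑ i ∈ Finset.range p.natDegree, C (D (p.coeff i)) * X ^ i
  have hr : aeval z r = 0 := by
    rw [map_sum]
    rw [Finset.sum_range_succ] at h3
    have h4 : D (p.coeff p.natDegree) = 0 := by
      rw [hpm.coeff_natDegree]; simp
    rw [h4, map_zero, zero_mul, add_zero] at h3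
    rw [h3]
    apply Finset.sum_congr rfl
    intro i _
    simp
  have hrd : r.degree < p.degree := by
    rw [degree_eq_natDegree hpm.ne_zero]
    apply (degree_sum_le _ _).trans_lt
    rw [Finset.sup_lt_iff (by exact_mod_cast WithBot.bot_lt_coe _)]
    intro i hi
    apply (degree_C_mul_X_pow_le _ _).trans_lt
    exact_mod_cast Finset.mem_range.1 hi
  have hr0 : r = 0 := by
    by_contra hne
    exact absurd (minpoly.degree_le_of_ne_zero E z hne hr) (not_le.2 hrd)
  have hcoef : ∀ i, D (p.coeff i) = 0 := by
    intro i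
    rcases lt_trichotomy i p.natDegree with hi | hi | hi
    · have h5 : r.coeff i = 0 := by rw [hr0, coeff_zero]
      rw [finsetSum_coeff] at h5
      simpa [coeff_C_mul, coeff_X_pow, Finset.sum_ite_eq, hi] using h5
    · rw [hi, hpm.coeff_natDegree]; simp
    · rw [coeff_eq_zero_of_natDegree_lt hi, map_zero]
  choose c hc using fun i => hD1 _ (hcoef i)
  have hlift : p ∈ lifts (algebraMap k E) := by
    rw [lifts_iff_coeff_lifts]
    intro i
    exact ⟨c i, hc i⟩
  obtain ⟨q, hq⟩ := hlift
  refine ⟨q, ?_, ?_⟩
  · rintro rfl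
    apply hpm.ne_zero
    rw [← hq]; simp
  · have h6 : aeval z (q.map (algebraMap k E)) = 0 := by
      have : q.map (algebraMap k E) = p := hq
      rw [this, hp, minpoly.aeval]
    rwa [aeval_map_algebraMap] at h6

theorem core {k E R κ : Type*} [Field k] [IsAlgClosed k] [CharZero k] [Field E] [Field R]
    [Algebra k E] [Algebra k R] [FF k R] [Field κ] [Algebra k κ] [Algebra E κ]
    [IsScalarTower k E κ] [Algebra.IsAlgebraic E κ] (ι : R →ₐ[k] κ) {l : ℕ}
    (g : Fin (l + 1) → R) (y : Fin (l + 1) → E) (D : Derivation ℤ E E) (del : Derivation k R R)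
    (hDk : ∀ c : k, D (algebraMap k E c) = 0)
    (hD1 : ∀ w : E, D w = 0 → ∃ c : k, algebraMap k E c = w) (hdel : del ≠ 0)
    (hA : ∑ j, algebraMap E κ (y j) * ι (g j) = 0)
    (hB : ∑ j, algebraMap E κ (D (y j)) * ι (g j) = 0) :
    ∑ j, algebraMap E κ (y j) * ι (del (g j)) = 0 := by
  have hchE : CharZero E := charZero_of_injective_algebraMap (algebraMap k E).injective
  have : Algebra.FormallyEtale E κ := Algebra.FormallyEtale.of_isSeparable _ _
  let D0 : Derivation ℤ E κ := (Algebra.linearMap E κ).compDer D
  obtain ⟨D', hD'⟩ := exists_deriv_ext ℤ E κ κ D0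
  have hD'' : ∀ a : E, D' (algebraMap E κ a) = algebraMap E κ (D a) := hD'
  obtain ⟨x, hx⟩ := FF.exists_transcendental (L := k) (E := R)
  have halgx : Algebra.IsAlgebraic k⟮x⟯ R := FF.isAlgebraic hx
  have hdx : del x ≠ 0 := by
    intro h0
    apply hdel
    ext r
    have := der_zero (AlgHom.id k R) (del : R →+ R) (fun a b => del.leibniz a b)
      (fun c => del.map_algebraMap c) (x := x) h0 (halgx.isAlgebraic r)
    exact this
  have hιdx : ι (del x) ≠ 0 := by simpa using hdx
  set θ : κ := D' (ι x) / ι (del x) with hθ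
  have hD'k : ∀ c : k, D' (algebraMap k κ c) = 0 := by
    intro c
    rw [IsScalarTower.algebraMap_apply k E κ, hD'', hDk, map_zero]
  have hmain : ∀ r : R, D' (ι r) = θ * ι (del r) := by
    intro r
    let d : R →+ κ :=
      { toFun := fun r => D' (ι r) - θ * ι (del r)
        map_zero' := by simp
        map_add' := by
          intro a b
          simp only [map_add]
          ring }
    have hd : ∀ a b, d (a * b) = ι a * d b + ι b * d a := by
      intro a b
      change D' (ι (a * b)) - θ * ι (del (a * b)) = ι a * (D' (ι b) - θ * ι (del b)) +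
        ι b * (D' (ι a) - θ * ι (del a))
      rw [map_mul, D'.leibniz, del.leibniz]
      simp only [map_add, smul_eq_mul, map_mul]
      ring
    have h0 : d r = 0 := by
      apply der_zero ι d hd _ _ (halgx.isAlgebraic r)
      · intro c
        change D' (ι (algebraMap k R c)) - θ * ι (del (algebraMap k R c)) = 0
        rw [ι.commutes, hD'k, del.map_algebraMap, map_zero, mul_zero, sub_zero]
      · change D' (ι x) - θ * ι (del x) = 0
        rw [hθ, div_mul_cancel₀ _ hιdx, sub_self]
    exact sub_eq_zero.1 h0
  have hθ0 : θ ≠ 0 := by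
    intro h0
    have h1 : D' (ι x) = 0 := by rw [hmain, h0, zero_mul]
    have h2 : IsAlgebraic k (ι x) := const_algebraic D hD1 D' hD''
      (Algebra.IsAlgebraic.isAlgebraic (ι x)) h1
    exact hx ((isAlgebraic_algHom_iff ι ι.toRingHom.injective).1 h2)
  have h3 : D' (∑ j, algebraMap E κ (y j) * ι (g j)) = 
      θ * ∑ j, algebraMap E κ (y j) * ι (del (g j)) + 
        ∑ j, algebraMap E κ (D (y j)) * ι (g j) := by
    rw [map_sum, Finset.mul_sum, ← Finset.sum_add_distrib]
    apply Finset.sum_congr rfl
    intro j _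
    rw [D'.leibniz, hmain, hD'', smul_eq_mul, smul_eq_mul]
    ring
  rw [hA, hB, map_zero, add_zero] at h3
  exact (mul_eq_zero.1 h3.symm).resolve_left hθ0

end Cop

theorem cop (halgk : AlgKStmt.{u}) : CopStmt.{u} := by
  intro k E R _ _ _ _ _ _ _ _ _ l g y D del hDk hD1 hdel hcop
  by_contra hnot
  set A := yT k y g with hA
  set B := yT k (fun s => D (y s)) g with hB
  set C' := yT k y (fun s => del (g s)) with hC
  have hA0 : A ≠ 0 := by
    intro h0
    have h1 : C' = 0 := by
      have h2 : (LinearMap.lTensor E (del : R →ₗ[k] R)) A = C' := by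
        rw [hA, hC, yT, yT, map_sum]
        rfl
      rw [← h2, h0, map_zero]
    rw [h0, h1] at hcop
    obtain ⟨a, b, hab⟩ := hcop
    rw [mul_zero, mul_zero, add_zero] at hab
    exact zero_ne_one hab
  have hne : Ideal.span {A, B} ≠ ⊤ := by
    intro h
    apply hnot
    rw [Ideal.eq_top_iff_one, Ideal.mem_span_pair] at h
    obtain ⟨a, b, hab⟩ := h
    exact ⟨a, b, hab⟩
  obtain ⟨mm, hmm, hle⟩ := Ideal.exists_le_maximal _ hne
  have hAm : A ∈ mm := hle (Ideal.subset_span (by simp))
  have hBm : B ∈ mm := hle (Ideal.subset_span (by simp))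
  letI : Field ((E ⊗[k] R) ⧸ mm) := Ideal.Quotient.field mm
  let κ := (E ⊗[k] R) ⧸ mm
  let ι : R →ₐ[k] κ := (Ideal.Quotient.mkₐ k mm).comp Algebra.TensorProduct.includeRight
  have htower : IsScalarTower k E κ := inferInstance
  have hlift : ∀ s : E ⊗[k] R, Algebra.TensorProduct.lift (IsScalarTower.toAlgHom k E κ) ι
      (fun _ _ => Commute.all _ _) s = Ideal.Quotient.mk mm s := by
    intro s
    induction s using TensorProduct.induction_on with
    | zero => rw [map_zero, map_zero]
    | tmul v r =>
      rw [Algebra.TensorProduct.lift_tmul]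
      change Ideal.Quotient.mk mm (v ⊗ₜ 1) * Ideal.Quotient.mk mm (1 ⊗ₜ r) = _
      rw [← map_mul, Algebra.TensorProduct.tmul_mul_tmul, one_mul, mul_one]
    | add a b ha hb => rw [map_add, map_add, ha, hb]
  have halg1 : ∀ h : R, IsAlgebraic E (ι h) := by
    apply halgk k E R κ ι A hA0
    rw [hlift]
    exact Ideal.Quotient.eq_zero_iff_mem.2 hAm
  have halg : Algebra.IsAlgebraic E κ := by
    constructor
    intro z
    obtain ⟨s, rfl⟩ := Ideal.Quotient.mk_surjective z
    induction s using TensorProduct.induction_on with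
    | zero => rw [map_zero]; exact isAlgebraic_zero
    | tmul v r =>
      rw [← hlift, Algebra.TensorProduct.lift_tmul]
      exact (isAlgebraic_algebraMap v).mul (halg1 r)
    | add a b ha hb => rw [map_add]; exact ha.add hb
  have hsum : ∀ (a : Fin (l + 1) → E) (b : Fin (l + 1) → R),
      ∑ j, algebraMap E κ (a j) * ι (b j) = Ideal.Quotient.mk mm (yT k a b) := by
    intro a b
    rw [← hlift, yT, map_sum]
    apply Finset.sum_congr rfl
    intro j _
    rw [Algebra.TensorProduct.lift_tmul]
    rfl
  have hfin := Cop.core ι g y D del hDk hD1 hdel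
    (by rw [hsum]; exact Ideal.Quotient.eq_zero_iff_mem.2 hAm)
    (by rw [hsum]; exact Ideal.Quotient.eq_zero_iff_mem.2 hBm)
  rw [hsum] at hfin
  have hCm : C' ∈ mm := Ideal.Quotient.eq_zero_iff_mem.1 hfin
  obtain ⟨a, b, hab⟩ := hcop
  apply hmm.ne_top
  rw [Ideal.eq_top_iff_one, ← hab]
  exact add_mem (mm.mul_mem_left _ hAm) (mm.mul_mem_left _ hCm)

end PGL
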